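import Mathlib

set_option autoImplicit false

namespace Pool.Agent.Results.MP_110f0a_gt.Answer

open Set Filter Topology

/-- `C_p(X, D)`: continuous maps to the discrete two-point space, pointwise topology -/
abbrev Cp (X : Type) [TopologicalSpace X] : Type := {f : X → Bool // Continuous f}

/-- k-space -/
def IsK (Z : Type) [TopologicalSpace Z] : Prop :=
  ∀ A : Set Z, (∀ K : Set Z, IsCompact K → IsClosed ((Subtype.val : K → Z) ⁻¹' A)) → IsClosed A

/-- `X` has a dense subset covered by compact sets with a countable network modulo them -/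
def DenseSigma (X : Type) [TopologicalSpace X] : Prop :=
  ∃ (𝒞 : Set (Set X)) (N : ℕ → Set X), (∀ C ∈ 𝒞, IsCompact C) ∧ Dense (⋃₀ 𝒞) ∧
    ∀ C ∈ 𝒞, ∀ U, IsOpen U → C ⊆ U → ∃ i, C ⊆ N i ∧ N i ⊆ U

theorem tendsto_iff {X ι : Type} [TopologicalSpace X] {l : Filter ι} {f : ι → Cp X} {g : Cp X} :
    Tendsto f l (𝓝 g) ↔ ∀ x, ∀ᶠ i in l, (f i).1 x = g.1 x := by
  rw [tendsto_subtype_rng, tendsto_pi_nhds]
  simp [nhds_discrete]

theorem mem_closure_iff' {X : Type} [TopologicalSpace X] {A : Set (Cp X)} {g : Cp X}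
    (h : ∀ F : Finset X, ∃ f ∈ A, ∀ x ∈ F, f.1 x = g.1 x) : g ∈ closure A := by
  choose f h1 h2 using h
  refine mem_closure_of_tendsto (b := atTop) (f := f) (tendsto_iff.2 fun x => ?_)
    (Eventually.of_forall h1)
  exact (eventually_ge_atTop {x}).mono fun F hF => h2 F x (hF (Finset.mem_singleton_self x))

theorem hit {X : Type} [TopologicalSpace X] (h : DenseSigma X) (φ : X → ℕ × ℕ → Bool)
    (hφ : Continuous φ) : ∃ Q : Set X, Q.Countable ∧ ∀ g : Cp X,
      (∀ x y, φ x = φ y → g.1 x = g.1 y) → (∀ q ∈ Q, g.1 q = false) → ∀ x, g.1 x = false := by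
  obtain ⟨𝒞, N, h1, h2, h3⟩ := h
  let B := TopologicalSpace.countableBasis (ℕ × ℕ → Bool)
  have hB := TopologicalSpace.isBasis_countableBasis (ℕ × ℕ → Bool)
  have : Countable B := (TopologicalSpace.countable_countableBasis _).to_subtype
  let S := {p : ℕ × B // (N p.1 ∩ φ ⁻¹' p.2.1).Nonempty}
  refine ⟨range fun p : S => p.2.some, countable_range _, fun g hs hq x => ?_⟩
  by_contra hx
  have ho : ∀ b, IsOpen (g.1 ⁻¹' {b}) := fun b => (isOpen_discrete _).preimage g.2
  obtain ⟨y, hy, C, hC, hyC⟩ := h2.inter_open_nonempty _ (ho true) ⟨x, by simpa using hx⟩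
  have hK : IsCompact (φ '' (C ∩ g.1 ⁻¹' {false})) :=
    ((h1 C hC).inter_right ((isClosed_discrete _).preimage g.2)).image hφ
  obtain ⟨W, a1, a2, a3⟩ := hB.exists_subset_of_mem_open (a := φ y) (u := (φ '' (C ∩ g.1 ⁻¹' {false}))ᶜ)
    (by
      rintro ⟨z, hz, e⟩
      have := (hs z y e).symm.trans hz.2
      rw [show g.1 y = true from hy] at this
      simp at this) hK.isClosed.isOpen_compl
  obtain ⟨W', b1, b2, b3⟩ : ∃ W' ∈ B, φ y ∈ W' ∧ closure W' ⊆ W := by
    obtain ⟨t, t1, t2, t3⟩ := exists_mem_nhds_isClosed_subset ((hB.isOpen a1).mem_nhds a2)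
    obtain ⟨W', c1, c2, c3⟩ := hB.mem_nhds_iff.1 t1
    exact ⟨W', c1, c2, (closure_minimal c3 t2).trans t3⟩
  obtain ⟨i, c1, c2⟩ := h3 C hC (g.1 ⁻¹' {true} ∪ φ ⁻¹' (closure W')ᶜ)
    ((ho true).union (isClosed_closure.isOpen_compl.preimage hφ)) (by
      intro z hz
      by_cases h4 : g.1 z = true
      · exact Or.inl h4
      · exact Or.inr fun h5 => a3 (b3 h5) ⟨z, ⟨hz, by simpa using h4⟩, rfl⟩)
  let p : S := ⟨(i, ⟨W', b1⟩), y, c1 hyC, b2⟩
  have d1 := p.2.some_mem
  rcases c2 d1.1 with d2 | d2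
  · have := (hq _ ⟨p, rfl⟩).symm.trans d2
    simp at this
  · exact d2 (subset_closure d1.2)

theorem disjoint_clopens {Z : Type} [TopologicalSpace Z] [T2Space Z] [CompactSpace Z]
    [TotallyDisconnectedSpace Z] (A : Set Z) (hA : A.Infinite) :
    ∃ (p : ℕ → Z) (W : ℕ → Set Z), (∀ n, p n ∈ A) ∧ (∀ n, p n ∈ W n) ∧ (∀ n, IsClopen (W n)) ∧
      ∀ z, ∀ᶠ n in atTop, z ∉ W n := by
  obtain ⟨a, ha⟩ := hA.exists_accPt_of_subset_isCompact isCompact_univ (subset_univ _)
  have h1 : ∀ U : {U : Set Z // IsClopen U ∧ a ∈ U}, ∃ (p : Z)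
      (V : {U : Set Z // IsClopen U ∧ a ∈ U}), p ∈ A ∧ p ∈ U.1 \ V.1 ∧ V.1 ⊆ U.1 := by
    rintro ⟨U, h1, h2⟩
    obtain ⟨p, ⟨b1, b2⟩, b3⟩ := (accPt_iff_nhds).1 ha.2 U (h1.isOpen.mem_nhds h2)
    obtain ⟨V, c1, c2, c3⟩ := exists_isClopen_of_totally_separated b3.symm
    exact ⟨p, ⟨U ∩ V, h1.inter c1, h2, c2⟩, b2, ⟨b1, fun h => c3 h.2⟩, inter_subset_left⟩
  choose p V h2 h3 h4 using h1
  let U : ℕ → {U : Set Z // IsClopen U ∧ a ∈ U} := fun n =>
    Nat.rec ⟨univ, isClopen_univ, mem_univ _⟩ (fun _ => V) n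
  have hm : Antitone fun n => (U n).1 := antitone_nat_of_succ_le fun n => h4 (U n)
  refine ⟨fun n => p (U n), fun n => (U n).1 \ (U (n + 1)).1, fun n => h2 _, fun n => h3 _,
    fun n => (U n).2.1.diff (U (n + 1)).2.1, fun z => ?_⟩
  by_cases h : ∃ m, z ∉ (U m).1
  · obtain ⟨m, hm'⟩ := h
    exact (eventually_ge_atTop m).mono fun n hn hz => hm' (hm hn hz.1)
  · push Not at h
    exact Eventually.of_forall fun n hz => hz.2 (h (n + 1))

theorem cont_dec {X : Type} [TopologicalSpace X] {s : Set X} [DecidablePred (· ∈ s)]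
    (h : IsClopen s) : Continuous fun x => decide (x ∈ s) := by
  refine continuous_discrete_rng.2 fun b => ?_
  cases b
  · convert h.compl.isOpen using 1
    ext x
    simp
  · convert h.isOpen using 1
    ext x
    simp

theorem alpha {X : Type} [TopologicalSpace X] (h : DenseSigma X) [SequentialSpace (Cp X)]
    (V : ℕ → ℕ → Cp X) (hV : ∀ n x, ∀ᶠ k in atTop, (V n k).1 x = false) :
    ∃ n k : ℕ → ℕ, Tendsto n atTop atTop ∧ ∀ x, ∀ᶠ j in atTop, (V (n j) (k j)).1 x = false := by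
  classical
  let φ : X → ℕ × ℕ → Bool := fun x p => (V p.1 p.2).1 x
  have hφ : Continuous φ := continuous_pi fun p => (V p.1 p.2).2
  obtain ⟨Q, hQ, hQ'⟩ := hit h φ hφ
  have sel : ∀ T : Set X, T.Countable → ∃ k0 : ℕ → ℕ, ∀ x ∈ T, ∃ N, ∀ n ≥ N, ∀ k ≥ k0 n,
      (V n k).1 x = false := by
    intro T hT
    rcases T.eq_empty_or_nonempty with rfl | hne
    · exact ⟨id, by simp⟩
    obtain ⟨q, rfl⟩ := hT.exists_eq_range hne
    have : ∀ n, ∃ k0, ∀ k ≥ k0, ∀ i ∈ Finset.range (n + 1), (V n k).1 (q i) = false := fun n =>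
      eventually_atTop.1 ((eventually_all_finset _).2 fun i _ => hV n (q i))
    choose k0 hk0 using this
    exact ⟨k0, by
      rintro _ ⟨i, rfl⟩
      exact ⟨i, fun n hn k hk => hk0 n k hk i (Finset.mem_range.2 (by omega))⟩⟩
  by_cases hfin : (range φ \ φ '' Q).Finite
  · have hc : (range φ).Countable :=
      (hfin.countable.union (hQ.image φ)).mono (subset_sdiff_union _ _)
    have : Countable (range φ) := hc.to_subtype
    obtain ⟨k0, hk0⟩ := sel (range fun y : range φ => y.2.choose) (countable_range _)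
    refine ⟨id, k0, tendsto_id, fun x => ?_⟩
    obtain ⟨N, hN⟩ := hk0 _ ⟨⟨φ x, x, rfl⟩, rfl⟩
    refine (eventually_ge_atTop N).mono fun n hn => ?_
    have e : φ (Exists.choose (⟨x, rfl⟩ : φ x ∈ range φ)) = φ x :=
      Exists.choose_spec (⟨x, rfl⟩ : φ x ∈ range φ)
    exact (congrFun e (n, k0 n)).symm.trans (hN n hn _ le_rfl)
  obtain ⟨p, W, p1, p2, p3, p4⟩ := disjoint_clopens _ hfin
  choose y hy using fun n => (p1 n).1
  obtain ⟨k0, hk0⟩ := sel Q hQ
  have hD : ∀ n, ∃ D : ℕ → Set (ℕ × ℕ → Bool), (∀ k, IsClopen (D k) ∧ p n ∈ D k ∧ D k ⊆ W n) ∧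
      ∀ z, z ≠ p n → ∀ᶠ k in atTop, z ∉ D k := by
    intro n
    obtain ⟨e, he⟩ := exists_surjective_nat (ℕ × ℕ)
    refine ⟨fun k => W n ∩ ⋂ i ∈ Finset.range k, {z | z (e i) = p n (e i)}, fun k =>
      ⟨(p3 n).inter (isClopen_biInter_finset fun i _ =>
        (isClopen_discrete {p n (e i)}).preimage (continuous_apply (e i))),
        ⟨p2 n, by simp⟩, inter_subset_left⟩, fun z hz => ?_⟩
    obtain ⟨c, hc⟩ := Function.ne_iff.1 hz
    obtain ⟨i, rfl⟩ := he c
    exact (eventually_gt_atTop i).mono fun k hk h =>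
      hc (mem_iInter₂.1 h.2 i (Finset.mem_range.2 hk))
  choose D hD1 hD2 using hD
  let e : ℕ × ℕ → Cp X := fun c => ⟨fun x => xor ((V c.1 (c.2 + k0 c.1)).1 x)
    (decide (φ x ∈ D c.1 c.2)), (continuous_of_discreteTopology (f := fun b : Bool × Bool =>
      xor b.1 b.2)).comp ((V _ _).2.prodMk (cont_dec ((hD1 c.1 c.2).1.preimage hφ)))⟩
  have hsh : ∀ n x, ∀ᶠ k in atTop, (V n (k + k0 n)).1 x = false := fun n x =>
    (tendsto_add_atTop_nat (k0 n)).eventually (hV n x)
  let z : Cp X := ⟨fun _ => false, continuous_const⟩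
  by_contra hcon
  have hcl : IsClosed (range e \ {z}) := by
    refine IsSeqClosed.isClosed fun u g hu hg => ?_
    choose c hc using fun j => (hu j).1
    have hsat : ∀ x x', φ x = φ x' → g.1 x = g.1 x' := by
      intro x x' hx
      obtain ⟨j, a1, a2⟩ := ((tendsto_iff.1 hg x).and (tendsto_iff.1 hg x')).exists
      rw [← a1, ← a2, ← hc]
      have := congrFun hx ((c j).1, (c j).2 + k0 (c j).1)
      simp only [e, hx]
      exact congrArg (fun b => xor b _) this
    by_cases h1 : ∃ d, ∃ᶠ j in atTop, c j = d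
    · obtain ⟨d, hd⟩ := h1
      have : g = e d := Subtype.ext (funext fun x => by
        obtain ⟨j, a1, a2⟩ := (hd.and_eventually (tendsto_iff.1 hg x)).exists
        rw [← a2, ← hc, a1])
      obtain ⟨j, hj⟩ := hd.exists
      rw [this, ← hj, hc]
      exact hu j
    exfalso
    push Not at h1
    by_cases h2 : ∃ n, ∃ᶠ j in atTop, (c j).1 = n
    · obtain ⟨n, hn⟩ := h2
      have key : ∀ (P : ℕ → Prop), (∀ᶠ k in atTop, P k) →
          ∃ᶠ j in atTop, (c j).1 = n ∧ P (c j).2 := by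
        intro P hP
        obtain ⟨K, hK⟩ := eventually_atTop.1 hP
        have : ∀ᶠ j in atTop, ∀ k ∈ Finset.range K, c j ≠ (n, k) :=
          (eventually_all_finset _).2 fun k _ => h1 (n, k)
        refine (hn.and_eventually this).mono fun j hj => ⟨hj.1, hK _ ?_⟩
        by_contra h3
        exact hj.2 _ (Finset.mem_range.2 (not_le.1 h3)) (Prod.ext hj.1 rfl)
      have a1 : g.1 (y n) = false := hQ' g hsat (fun q hq => by
        obtain ⟨j, ⟨b1, b2, b3⟩, b4⟩ := ((key _ ((hsh n q).and (hD2 n (φ q) fun h =>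
          (p1 n).2 ⟨q, hq, h⟩))).and_eventually (tendsto_iff.1 hg q)).exists
        rw [← b4, ← hc]
        simp [e, b1, b2, b3]) _
      obtain ⟨j, ⟨b1, b2⟩, b4⟩ :=
        ((key _ (hsh n (y n))).and_eventually (tendsto_iff.1 hg (y n))).exists
      rw [← b4, ← hc] at a1
      simp [e, b1, b2, hy, (hD1 n _).2.1] at a1
    · push Not at h2
      have hn : Tendsto (fun j => (c j).1) atTop atTop := by
        refine tendsto_atTop.2 fun N => ?_
        have : ∀ᶠ j in atTop, ∀ k ∈ Finset.range N, (c j).1 ≠ k :=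
          (eventually_all_finset _).2 fun k _ => h2 k
        refine this.mono fun j hj => ?_
        by_contra h3
        exact hj _ (Finset.mem_range.2 (not_le.1 h3)) rfl
      have hW : ∀ x, ∀ᶠ j in atTop, φ x ∉ D (c j).1 (c j).2 := fun x =>
        (hn.eventually (p4 (φ x))).mono fun j hj h => hj ((hD1 _ _).2.2 h)
      have a1 := hQ' g hsat fun q hq => by
        obtain ⟨N, hN⟩ := hk0 q hq
        obtain ⟨j, ⟨b1, b2⟩, b4⟩ := (((hW q).and (hn.eventually_ge_atTop N)).and
          (tendsto_iff.1 hg q)).exists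
        rw [← b4, ← hc]
        simp [e, b1, hN _ b2 _ (Nat.le_add_left _ _)]
      refine hcon ⟨fun j => (c j).1, fun j => (c j).2 + k0 (c j).1, hn, fun x => ?_⟩
      filter_upwards [hW x, tendsto_iff.1 hg x] with j b1 b2
      rw [← hc, a1] at b2
      simpa [e, b1] using b2
  refine (hcl.closure_subset (mem_closure_iff' (g := z) fun F => ?_)).2 rfl
  obtain ⟨n, hn⟩ := ((eventually_all_finset F).2 fun x _ => p4 (φ x)).exists
  obtain ⟨k, b1, b2⟩ :=
    (((eventually_all_finset F).2 fun x _ => hsh n x).and (hsh n (y n))).exists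
  refine ⟨e (n, k), ⟨⟨_, rfl⟩, fun h => ?_⟩, fun x hx => ?_⟩
  · have := congrFun (congrArg Subtype.val h) (y n)
    simp [e, z, b2, hy, (hD1 n _).2.1] at this
  · have : φ x ∉ D n k := fun h => hn x hx ((hD1 _ _).2.2 h)
    simp [e, z, b1 x hx, this]

theorem frechet {X : Type} [TopologicalSpace X] (h : DenseSigma X) [SequentialSpace (Cp X)] :
    FrechetUrysohnSpace (Cp X) := by
  refine ⟨fun A => ?_⟩
  refine closure_minimal subset_seqClosure (IsSeqClosed.isClosed fun u g hu hg => ?_)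
  choose w hw1 hw2 using hu
  obtain ⟨n, k, h1, h2⟩ := alpha h (fun n k => ⟨fun x => xor ((w n k).1 x) ((u n).1 x),
    (continuous_of_discreteTopology (f := fun b : Bool × Bool => xor b.1 b.2)).comp
      ((w n k).2.prodMk (u n).2)⟩)
    fun n x => (tendsto_iff.1 (hw2 n) x).mono fun k hk => by simp [hk]
  refine ⟨fun j => w (n j) (k j), fun j => hw1 _ _, tendsto_iff.2 fun x => ?_⟩
  filter_upwards [h2 x, h1.eventually (tendsto_iff.1 hg x)] with j a1 a2
  rw [← a2]
  simpa using a1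

theorem sep_dense {X : Type} [TopologicalSpace X] [TopologicalSpace.SeparableSpace X] :
    DenseSigma X := by
  rcases isEmpty_or_nonempty X with h | h
  · exact ⟨∅, fun _ => ∅, by simp, fun x => h.elim x, by simp⟩
  · let q := TopologicalSpace.denseSeq X
    refine ⟨range fun i => {q i}, fun i => {q i}, ?_, ?_, ?_⟩
    · rintro _ ⟨i, rfl⟩
      exact isCompact_singleton
    · rw [sUnion_range, iUnion_singleton_eq_range]
      exact TopologicalSpace.denseRange_denseSeq X
    · rintro _ ⟨i, rfl⟩ U _ hU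
      exact ⟨i, subset_rfl, hU⟩

theorem k_seq {X : Type} [TopologicalSpace X] [TopologicalSpace.SeparableSpace X]
    (h : IsK (Cp X)) : SequentialSpace (Cp X) := by
  obtain ⟨Q, hQ, hQ'⟩ := TopologicalSpace.exists_countable_dense X
  have : Countable Q := hQ.to_subtype
  refine ⟨fun A hA => h A fun K hK => ?_⟩
  have : CompactSpace K := isCompact_iff_compactSpace.1 hK
  have h1 : Continuous fun (f : K) (q : Q) => f.1.1 q.1 := continuous_pi fun q =>
    (continuous_apply q.1).comp (continuous_subtype_val.comp continuous_subtype_val)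
  have h2 : Function.Injective fun (f : K) (q : Q) => f.1.1 q.1 := fun f g hfg =>
    Subtype.ext (Subtype.ext (Continuous.ext_on hQ' f.1.2 g.1.2 fun q hq => congrFun hfg ⟨q, hq⟩))
  have := (h1.isClosedEmbedding h2).isEmbedding.firstCountableTopology
  exact (hA.preimage continuous_subtype_val.seqContinuous).isClosed

/-- the discrete space of size continuum -/
def Dc : Type := ℝ

instance : TopologicalSpace Dc := ⊥
instance : DiscreteTopology Dc := ⟨rfl⟩

theorem result :
    (∃ (X : Type) (_ : TopologicalSpace X), T35Space X ∧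
      TopologicalSpace.IsTopologicalBasis {U : Set X | IsClopen U} ∧
      IsK (Cp X) ∧ ¬ FrechetUrysohnSpace (Cp X)) ∧
    (∀ (X : Type) [TopologicalSpace X], TopologicalSpace.SeparableSpace X →
      IsK (Cp X) → FrechetUrysohnSpace (Cp X)) ∧
    (∀ (X : Type) [TopologicalSpace X], DenseSigma X →
      SequentialSpace (Cp X) → FrechetUrysohnSpace (Cp X)) := by
  classical
  refine ⟨⟨Dc, inferInstance, inferInstance, ?_, ?_, ?_⟩, fun X _ _ h => ?_, fun X _ h _ => frechet h⟩
  · exact TopologicalSpace.isTopologicalBasis_of_isOpen_of_nhds (fun U hU => hU.isOpen)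
      fun a U ha _ => ⟨U, isClopen_discrete U, ha, subset_rfl⟩
  · intro A hA
    have : IsCompact (univ : Set (Cp Dc)) := by
      rw [Subtype.isCompact_iff]
      convert (isCompact_univ : IsCompact (univ : Set (Dc → Bool)))
      ext f
      simp [continuous_of_discreteTopology]
    have h1 := isClosed_univ.isClosedMap_subtype_val _ (hA _ this)
    simpa using h1
  · intro hF
    let z : Cp Dc := ⟨fun _ => true, continuous_const⟩
    have h1 : z ∈ closure {f : Cp Dc | {x | f.1 x = true}.Finite} := mem_closure_iff' fun F =>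
      ⟨⟨fun x => decide (x ∈ F), continuous_of_discreteTopology⟩, by simp,
        fun x hx => by simp [z, hx]⟩
    obtain ⟨u, a1, a2⟩ := mem_closure_iff_seq_limit.1 h1
    refine not_countable_univ (α := ℝ) ((countable_iUnion fun n => (a1 n).countable).mono ?_)
    intro x _
    obtain ⟨n, hn⟩ := (tendsto_iff.1 a2 x).exists
    exact mem_iUnion.2 ⟨n, hn⟩
  · have := k_seq h
    exact frechet sep_dense

end Pool.Agent.Results.MP_110f0a_gt.Answer
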